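import Pool.Agent.N637.SLX.Stm3
import Pool.Agent.Y212.RZ.Lag0

/-!
# Project SLX: the first values of the law
-/

set_option autoImplicit false

namespace Pool.Agent.N136.SLX

open Finset Module
open Pool.Agent.N637.SLX
open Pool.Agent.Y212.RZ (rad mem_rad even_rad)

/-- the kernel, with the computable instance -/
def ker {n : ℕ} (M : Fin n → Fin n → ZMod 2) : Finset (Fin n → ZMod 2) :=
  univ.filter fun x : Fin n → ZMod 2 => ∀ a, ∑ b, M a b * x b = 0

theorem cor_iff {n : ℕ} (M : Fin n → Fin n → ZMod 2) (j : ℕ) : Cor M j ↔ (ker M).card = 2 ^ j := by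
  unfold Cor ker
  have : ∀ (s t : Finset (Fin n → ZMod 2)), s = t → (s.card = 2 ^ j ↔ t.card = 2 ^ j) := by
    rintro s t rfl
    rfl
  apply this
  ext x
  simp only [mem_filter]

theorem alt_eq {r j : ℕ} (M₀ : Fin r → Fin r → ZMod 2)
    (h : ∀ M : Fin r → Fin r → ZMod 2, (Alt M ∧ (ker M).card = 2 ^ j) ↔ M = M₀) : alt r j = 1 := by
  classical
  unfold alt
  rw [card_eq_one]
  refine ⟨M₀, ?_⟩
  ext M
  rw [mem_filter, mem_singleton, cor_iff, h]
  simp

theorem alt00 : alt 0 0 = 1 := by
  apply alt_eq (fun _ _ => 0)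
  intro M
  constructor
  · intro _
    exact Subsingleton.elim _ _
  · intro _
    refine ⟨⟨fun a => a.elim0, fun a => a.elim0⟩, ?_⟩
    unfold ker
    simp

theorem alt11 : alt 1 1 = 1 := by
  apply alt_eq (fun _ _ => 0)
  unfold Alt ker
  decide

theorem alt20 : alt 2 0 = 1 := by
  apply alt_eq ![![0, 1], ![1, 0]]
  unfold Alt ker
  decide

theorem alt22 : alt 2 2 = 1 := by
  apply alt_eq (fun _ _ => 0)
  unfold Alt ker
  decide

theorem alt_gt {r j : ℕ} (h : r < j) : alt r j = 0 := by
  classical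
  unfold alt
  rw [card_eq_zero, filter_eq_empty_iff]
  rintro M _ ⟨_, h2⟩
  rw [cor_iff] at h2
  have h3 : (ker M).card ≤ 2 ^ r := by
    refine (card_le_univ _).trans ?_
    rw [Fintype.card_fun, ZMod.card, Fintype.card_fin]
  have h4 : 2 ^ r < 2 ^ j := Nat.pow_lt_pow_right (by norm_num) h
  omega

theorem even_of {r j : ℕ} (M : Fin r → Fin r → ZMod 2) (hA : Alt M) (hC : Cor M j) :
    Even (r + j) := by
  classical
  set β := Matrix.toBilin' (Matrix.of M) with hβ
  have hβa : ∀ x y, β x y = ∑ a, ∑ b, x a * M a b * y b := by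
    intro x y
    rw [hβ, Matrix.toBilin'_apply]
    rfl
  have halt : ∀ p, β p p = 0 := by
    intro p
    rw [hβa, ← sum_product']
    apply sum_involution (fun x _ => (x.2, x.1))
    · rintro ⟨a, b⟩ _
      simp only
      rw [hA.2 b a]
      have : p a * M a b * p b + p b * M a b * p a = 2 * (p a * M a b * p b) := by ring
      rw [this, show (2 : ZMod 2) = 0 from rfl, zero_mul]
    · rintro ⟨a, b⟩ _ hne heq
      simp only [Prod.mk.injEq] at heq
      apply hne
      simp only
      rw [heq.1, hA.1 a]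
      ring
    · intro _ _
      exact mem_product.2 ⟨mem_univ _, mem_univ _⟩
    · rintro ⟨a, b⟩ _
      rfl
  have h1 := even_rad (F := ZMod 2) (X := Fin r → ZMod 2) β _ ⊤ rfl (fun p _ => halt p)
  have h2 : finrank (ZMod 2) (⊤ : Submodule (ZMod 2) (Fin r → ZMod 2)) = r := by
    rw [finrank_top, finrank_fin_fun]
  have h3 : ∀ x, x ∈ rad β ⊤ ↔ x ∈ ker M := by
    intro x
    rw [mem_rad, ker, mem_filter]
    constructor
    · rintro ⟨_, hx⟩
      refine ⟨mem_univ _, fun b => ?_⟩
      have h := hx (Pi.single b 1) (Submodule.mem_top)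
      rw [hβa] at h
      rw [← h]
      apply sum_congr rfl
      intro a _
      rw [sum_eq_single b]
      · rw [Pi.single_eq_same, hA.2 b a]
        ring
      · intro c _ hc
        rw [Pi.single_eq_of_ne hc, mul_zero]
      · intro hb
        exact absurd (mem_univ _) hb
    · rintro ⟨_, hx⟩
      refine ⟨Submodule.mem_top, fun y _ => ?_⟩
      rw [hβa, sum_comm]
      apply sum_eq_zero
      intro b _
      rw [← sum_mul]
      have : ∑ a, x a * M a b = 0 := by
        rw [← hx b]
        apply sum_congr rfl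
        intro a _
        rw [hA.2 a b, mul_comm]
      rw [this, zero_mul]
  have h4 : (ker M).card = 2 ^ finrank (ZMod 2) (rad β ⊤) := by
    have h := Module.card_eq_pow_finrank (K := ZMod 2) (V := rad β ⊤)
    rw [ZMod.card] at h
    rw [← h, Fintype.card_subtype]
    congr 1
    ext x
    rw [mem_filter, h3]
    simp
  rw [cor_iff, h4] at hC
  have h5 := Nat.pow_right_injective (le_refl 2) hC
  rw [h2, h5] at h1
  exact h1

theorem alt_odd {r j : ℕ} (h : ¬ Even (r + j)) : alt r j = 0 := by
  classical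
  unfold alt
  rw [card_eq_zero, filter_eq_empty_iff]
  rintro M _ ⟨h1, h2⟩
  exact h (even_of M h1 h2)

theorem mul_able (c : ℕ) : Multipliable fun n : ℕ => (1 - (1 / 2 : ℝ) ^ (n + c)) := by
  have h : Summable fun n : ℕ => (-(1 / 2 : ℝ) ^ (n + c)) := by
    apply Summable.neg
    exact (summable_nat_add_iff c).2 summable_geometric_two
  have := Real.multipliable_one_add_of_summable h
  simpa [sub_eq_add_neg] using this

theorem step (c : ℕ) : ∏' n : ℕ, (1 - (1 / 2 : ℝ) ^ (n + c)) =
    (1 - (1 / 2 : ℝ) ^ c) * ∏' n : ℕ, (1 - (1 / 2 : ℝ) ^ (n + (c + 1))) := by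
  rw [tprod_eq_zero_mul']
  · congr 1
    · rw [zero_add]
    · apply tprod_congr
      intro n
      congr 2
      ring
  · have := mul_able (c + 1)
    refine this.congr ?_
    intro n
    congr 2
    ring

theorem prod_eq (r : ℕ) : ∏' l : ℕ, (1 - (1 / 2 : ℝ) ^ (r + 1 + l)) =
    ∏' n : ℕ, (1 - (1 / 2 : ℝ) ^ (n + (r + 1))) := by
  apply tprod_congr
  intro n
  rw [add_comm (r + 1) n]

/-- the first values of the law -/
theorem t_VAL : S_VAL := by
  have s1 := step 1
  have s2 := step 2
  norm_num at s1 s2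
  refine ⟨?_, ?_, ?_, ?_, ?_, ?_⟩
  · unfold law
    rw [alt00, prod_eq]
    simp [gl]
  · unfold law
    rw [alt11, prod_eq, show gl 1 = 1 from rfl]
    norm_num
    rw [s1]
    ring
  · unfold law
    rw [alt20, prod_eq, show gl 2 = 6 from rfl]
    norm_num
    rw [s1, s2]
    ring
  · unfold law
    rw [alt22, prod_eq, show gl 2 = 6 from rfl]
    norm_num
    rw [s1, s2]
    ring
  · intro r j h
    unfold law
    rw [alt_gt h]
    simp
  · intro r j h
    unfold law
    rw [alt_odd h]
    simp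

end Pool.Agent.N136.SLX
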